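import Mathlib
import Pool.Agent.H80.Poly.More

set_option autoImplicit false

/-!
# Machines whose input alphabet is `Bool ⊕ Bool`, feeding a stack program
-/

namespace Pool.Agent.H39.Front

open Turing Pool.Agent.H80.Poly

/-- the input alphabet -/
abbrev A2 : Type := Bool ⊕ Bool

/-- stacks: an input stack and an auxiliary stack over `A2`, and `n` stacks over `Bool` -/
abbrev KK (n : ℕ) : Type := Bool ⊕ Fin n

/-- alphabets of the stacks -/
abbrev GG (n : ℕ) : KK n → Type
  | Sum.inl _ => A2
  | Sum.inr _ => Bool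

/-- internal states -/
abbrev SS : Type := Option A2 × Option Bool

open TM2.Stmt in
/-- compiled code -/
def code (n : ℕ) [NeZero n] {Λ : Type} : {p : Prog} → (l : Lbl p) → (Lbl p → Λ) → Λ →
    TM2.Stmt (GG n) Λ SS
  | _, Lbl.skip, _, e => goto (fun _ => e)
  | _, @Lbl.push i b, _, e => push (Sum.inr (fi n i)) (fun _ => b) (goto (fun _ => e))
  | _, @Lbl.pop i, _, e => pop (Sum.inr (fi n i)) (fun s _ => s) (goto (fun _ => e))
  | _, @Lbl.seqL _ q l, ι, _ => code n l (fun l => ι (Lbl.seqL l)) (ι (Lbl.seqR (entry q)))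
  | _, Lbl.seqR l, ι, e => code n l (fun l => ι (Lbl.seqR l)) e
  | _, @Lbl.iteH i c p q, ι, _ => peek (Sum.inr (fi n i)) (fun s x => (s.1, x))
      (branch (fun s => c s.2) (goto (fun _ => ι (Lbl.iteL (entry p))))
        (goto (fun _ => ι (Lbl.iteR (entry q)))))
  | _, Lbl.iteL l, ι, e => code n l (fun l => ι (Lbl.iteL l)) e
  | _, Lbl.iteR l, ι, e => code n l (fun l => ι (Lbl.iteR l)) e
  | _, @Lbl.loopH i c p, ι, e => peek (Sum.inr (fi n i)) (fun s x => (s.1, x))
      (branch (fun s => c s.2) (goto (fun _ => ι (Lbl.loopB (entry p)))) (goto (fun _ => e)))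
  | _, Lbl.loopB l, ι, _ => code n l (fun l => ι (Lbl.loopB l)) (ι Lbl.loopH)

/-- stacks of the machine -/
def toStk (n : ℕ) (x y : List A2) (S : Stt) : ∀ k : KK n, List (GG n k)
  | Sum.inl false => x
  | Sum.inl true => y
  | Sum.inr k => S k.val

theorem toStk_fi {n : ℕ} [NeZero n] (x y : List A2) (S : Stt) {i : ℕ} (h : i < n) :
    toStk n x y S (Sum.inr (fi n i)) = S i := by
  simp [toStk, fi, Nat.mod_eq_of_lt h]

theorem toStk_update {n : ℕ} [NeZero n] (x y : List A2) (S : Stt) {i : ℕ} (h : i < n)
    (z : List Bool) :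
    Function.update (toStk n x y S) (Sum.inr (fi n i)) z =
      toStk n x y (Function.update S i z) := by
  funext k
  by_cases hk : k = Sum.inr (fi n i)
  · subst hk
    have : (fi n i).val = i := by simp [fi, Nat.mod_eq_of_lt h]
    rw [Function.update_self]
    show z = Function.update S i z (fi n i).val
    rw [this, Function.update_self]
  · rw [Function.update_of_ne hk]
    rcases k with (_ | _) | k
    · rfl
    · rfl
    · have h2 : k.val ≠ i := by
        intro hki
        apply hk
        congr 1
        apply Fin.ext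
        simp [fi, Nat.mod_eq_of_lt h, hki]
      show S k.val = Function.update S i z k.val
      rw [Function.update_of_ne h2]

/-- `t` steps of the machine `M` lead from `a` to `b` -/
def Rch {n : ℕ} {Λ : Type} (M : Λ → TM2.Stmt (GG n) Λ SS) (t : ℕ)
    (a b : TM2.Cfg (GG n) Λ SS) : Prop :=
  (flip bind (TM2.step M))^[t] (some a) = some b

theorem Rch.trans {n : ℕ} {Λ : Type} {M : Λ → TM2.Stmt (GG n) Λ SS}
    {s t : ℕ} {a b c : TM2.Cfg (GG n) Λ SS} (h1 : Rch M s a b)
    (h2 : Rch M t b c) : Rch M (s + t) a c := by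
  unfold Rch at *
  rw [add_comm, Function.iterate_add_apply, h1, h2]

theorem Rch.one {n : ℕ} {Λ : Type} {M : Λ → TM2.Stmt (GG n) Λ SS}
    {a b : TM2.Cfg (GG n) Λ SS} (h : TM2.step M a = some b) :
    Rch M 1 a b := h

theorem Rch.cons {n : ℕ} {Λ : Type} {M : Λ → TM2.Stmt (GG n) Λ SS}
    {t : ℕ} {a b c : TM2.Cfg (GG n) Λ SS}
    (h1 : TM2.step M a = some b) (h2 : Rch M t b c) : Rch M (t + 1) a c := by
  rw [add_comm]
  exact (Rch.one h1).trans h2

/-- Simulation of a program by its compiled code. -/
theorem sim {n : ℕ} [NeZero n] {p : Prog} {S S' : Stt} {t : ℕ} (h : Ex p S S' t) (hn : bnd p ≤ n)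
    {Λ : Type} (M : Λ → TM2.Stmt (GG n) Λ SS) (ι : Lbl p → Λ) (e : Λ)
    (hM : ∀ l, M (ι l) = code n l ι e) (x y : List A2) (v : SS) :
    ∃ v', Rch M t ⟨some (ι (entry p)), v, toStk n x y S⟩ ⟨some e, v', toStk n x y S'⟩ := by
  induction h generalizing e v with
  | skip S =>
    refine ⟨v, Rch.one ?_⟩
    simp [TM2.step, hM, entry, code, TM2.stepAux]
  | push i b S =>
    have hi : i < n := hn
    refine ⟨v, Rch.one ?_⟩
    simp [TM2.step, hM, entry, code, TM2.stepAux, toStk_fi x y S hi, toStk_update x y S hi]
  | pop i S =>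
    have hi : i < n := hn
    refine ⟨v, Rch.one ?_⟩
    simp [TM2.step, hM, entry, code, TM2.stepAux, toStk_fi x y S hi, toStk_update x y S hi]
  | seq h1 h2 ih1 ih2 =>
    simp only [bnd, max_le_iff] at hn
    obtain ⟨v1, hv1⟩ := ih1 hn.1 (fun l => ι (Lbl.seqL l)) (ι (Lbl.seqR (entry _)))
      (fun l => by rw [hM]; rfl) v
    obtain ⟨v2, hv2⟩ := ih2 hn.2 (fun l => ι (Lbl.seqR l)) e (fun l => by rw [hM]; rfl) v1
    exact ⟨v2, hv1.trans hv2⟩
  | @iteT i c p q S S' n' hc h1 ih =>
    simp only [bnd, max_le_iff] at hn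
    have hi : i < n := hn.1
    obtain ⟨v1, hv1⟩ := ih hn.2.1 (fun l => ι (Lbl.iteL l)) e (fun l => by rw [hM]; rfl)
      (v.1, (S i).head?)
    refine ⟨v1, Rch.cons ?_ hv1⟩
    simp [TM2.step, hM, code, entry, TM2.stepAux, toStk_fi x y S hi, hc]
  | @iteF i c p q S S' n' hc h1 ih =>
    simp only [bnd, max_le_iff] at hn
    have hi : i < n := hn.1
    obtain ⟨v1, hv1⟩ := ih hn.2.2 (fun l => ι (Lbl.iteR l)) e (fun l => by rw [hM]; rfl)
      (v.1, (S i).head?)
    refine ⟨v1, Rch.cons ?_ hv1⟩
    simp [TM2.step, hM, code, entry, TM2.stepAux, toStk_fi x y S hi, hc]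
  | @loopF i c p S hc =>
    simp only [bnd, max_le_iff] at hn
    have hi : i < n := hn.1
    refine ⟨(v.1, (S i).head?), Rch.one ?_⟩
    simp [TM2.step, hM, code, entry, TM2.stepAux, toStk_fi x y S hi, hc]
  | @loopT i c p S S' S'' m n' hc h1 h2 ih1 ih2 =>
    have hn' := hn
    simp only [bnd, max_le_iff] at hn
    have hi : i < n := hn.1
    obtain ⟨v1, hv1⟩ := ih1 hn.2 (fun l => ι (Lbl.loopB l)) (ι Lbl.loopH)
      (fun l => by rw [hM]; rfl) (v.1, (S i).head?)
    obtain ⟨v2, hv2⟩ := ih2 hn' ι e hM v1
    refine ⟨v2, Rch.cons ?_ (hv1.trans hv2)⟩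
    simp [TM2.step, hM, code, entry, TM2.stepAux, toStk_fi x y S hi, hc]

/-- tag and value of a symbol -/
def tagOf (s : SS) : Bool := match s.1 with
  | some (Sum.inl _) => false
  | some (Sum.inr _) => true
  | none => false

def valOf (s : SS) : Bool := match s.1 with
  | some (Sum.inl b) => b
  | some (Sum.inr b) => b
  | none => false

open TM2.Stmt in
/-- The program of the machine: `Sum.inr false` moves the input to the auxiliary stack, `Sum.inr true`
writes the encoding of the input on stack `0`, then the program runs. -/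
def mach (p : Prog) : Option (Lbl p) ⊕ Bool → TM2.Stmt (GG (bnd p + 1))
    (Option (Lbl p) ⊕ Bool) SS
  | Sum.inr false => pop (Sum.inl false) (fun _ x => (x, none))
      (branch (fun s => s.1.isSome)
        (push (Sum.inl true) (fun s => s.1.getD (Sum.inl false)) (goto (fun _ => Sum.inr false)))
        (goto (fun _ => Sum.inr true)))
  | Sum.inr true => pop (Sum.inl true) (fun _ x => (x, none))
      (branch (fun s => s.1.isSome)
        (push (Sum.inr (fi (bnd p + 1) 0)) (fun _ => false)
          (push (Sum.inr (fi (bnd p + 1) 0)) (fun s => valOf s)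
            (push (Sum.inr (fi (bnd p + 1) 0)) (fun _ => true)
              (push (Sum.inr (fi (bnd p + 1) 0)) (fun s => tagOf s)
                (push (Sum.inr (fi (bnd p + 1) 0)) (fun _ => true)
                  (goto (fun _ => Sum.inr true)))))))
        (goto (fun _ => Sum.inl (some (entry p)))))
  | Sum.inl none => load (fun _ => (none, none)) halt
  | Sum.inl (some l) => code (bnd p + 1) l (fun l => Sum.inl (some l)) (Sum.inl none)

theorem upd_inl_false (n : ℕ) (x x' y : List A2) (S : Stt) :
    Function.update (toStk n x y S) (Sum.inl false) x' = toStk n x' y S := by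
  funext k
  rcases k with (_ | _) | k
  · rw [Function.update_self]; rfl
  · rw [Function.update_of_ne (by simp)]; rfl
  · rw [Function.update_of_ne (by simp)]; rfl

theorem upd_inl_true (n : ℕ) (x y y' : List A2) (S : Stt) :
    Function.update (toStk n x y S) (Sum.inl true) y' = toStk n x y' S := by
  funext k
  rcases k with (_ | _) | k
  · rw [Function.update_of_ne (by simp)]; rfl
  · rw [Function.update_self]; rfl
  · rw [Function.update_of_ne (by simp)]; rfl

theorem phase1 (p : Prog) (v : SS) : ∀ (x y : List A2), ∃ v', Rch (mach p) (x.length + 1)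
    ⟨some (Sum.inr false), v, toStk (bnd p + 1) x y (ini [])⟩
    ⟨some (Sum.inr true), v', toStk (bnd p + 1) [] (x.reverse ++ y) (ini [])⟩ := by
  intro x
  induction x generalizing v with
  | nil =>
    intro y
    refine ⟨(none, none), Rch.one ?_⟩
    have h0 : toStk (bnd p + 1) [] y (ini []) (Sum.inl false) = [] := rfl
    simp only [TM2.step, mach, TM2.stepAux, h0, List.head?_nil, List.tail_nil, upd_inl_false,
      Option.isSome_none, cond_false, List.reverse_nil, List.nil_append]
  | cons a x ih =>
    intro y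
    obtain ⟨v', h⟩ := ih (some a, none) (a :: y)
    refine ⟨v', ?_⟩
    have h0 : toStk (bnd p + 1) (a :: x) y (ini []) (Sum.inl false) = a :: x := rfl
    have h1 : toStk (bnd p + 1) x y (ini []) (Sum.inl true) = y := rfl
    have h2 := Rch.cons (M := mach p)
      (a := ⟨some (Sum.inr false), v, toStk (bnd p + 1) (a :: x) y (ini [])⟩) ?_ h
    · simpa using h2
    · simp only [TM2.step, mach, TM2.stepAux, h0, h1, List.head?_cons, List.tail_cons,
        upd_inl_false, Option.isSome_some, cond_true, Option.getD_some, upd_inl_true]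

theorem phase2 (p : Prog) : ∀ (y : List A2) (v : SS) (z : List A2), ∃ v', Rch (mach p) (y.length + 1)
    ⟨some (Sum.inr true), v, toStk (bnd p + 1) [] y (ini (enc z))⟩
    ⟨some (Sum.inl (some (entry p))), v', toStk (bnd p + 1) [] [] (ini (enc (y.reverse ++ z)))⟩ := by
  intro y
  induction y with
  | nil =>
    intro v z
    refine ⟨(none, none), Rch.one ?_⟩
    have h0 : toStk (bnd p + 1) [] [] (ini (enc z)) (Sum.inl true) = [] := rfl
    simp only [TM2.step, mach, TM2.stepAux, h0, List.head?_nil, List.tail_nil, upd_inl_true,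
      Option.isSome_none, cond_false, List.reverse_nil, List.nil_append]
  | cons a y ih =>
    intro v z
    obtain ⟨v', h⟩ := ih (some a, none) (a :: z)
    refine ⟨v', ?_⟩
    have h0 : toStk (bnd p + 1) [] (a :: y) (ini (enc z)) (Sum.inl true) = a :: y := rfl
    have hi : 0 < bnd p + 1 := Nat.succ_pos _
    have hz : ∀ w w' : List Bool, Function.update (ini w) 0 w' = ini w' := by
      intro w w'
      funext k
      by_cases hk : k = 0
      · subst hk; simp [ini]
      · rw [Function.update_of_ne hk]; simp [ini, hk]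
    have h2 := Rch.cons (M := mach p)
      (a := ⟨some (Sum.inr true), v, toStk (bnd p + 1) [] (a :: y) (ini (enc z))⟩) ?_ h
    · simpa using h2
    · simp only [TM2.step, mach, TM2.stepAux, h0, List.head?_cons, List.tail_cons,
        upd_inl_true, Option.isSome_some, cond_true, toStk_update _ _ _ hi, toStk_fi _ _ _ hi, hz,
        ini_0]
      congr 3
      rcases a with a | a <;> simp [enc_cons, pr, esc, tagOf, valOf]

/-- The machine of a program. -/
noncomputable def machine (p : Prog) : FinTM2 where
  K := KK (bnd p + 1)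
  k₀ := Sum.inl false
  k₁ := Sum.inr 0
  Γ := GG (bnd p + 1)
  Λ := Option (Lbl p) ⊕ Bool
  main := Sum.inr false
  ΛFin := letI := lblFinite p; Fintype.ofFinite _
  σ := SS
  initialState := (none, none)
  Γk₀Fin := inferInstanceAs (Fintype A2)
  m := mach p

theorem machine_outputs {p : Prog} {x : List A2} {y : List Bool} {t : ℕ}
    (h : Ex p (ini (enc x)) (ini y) t) :
    Rch (mach p) ((x.length + 1) + ((x.length + 1) + (t + 1)))
      ⟨some (Sum.inr false), (none, none), toStk (bnd p + 1) x [] (ini [])⟩
      ⟨none, (none, none), toStk (bnd p + 1) [] [] (ini y)⟩ := by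
  obtain ⟨v1, h1⟩ := phase1 p (none, none) x []
  obtain ⟨v2, h2⟩ := phase2 p x.reverse v1 []
  rw [List.length_reverse, List.reverse_reverse, List.append_nil] at h2
  rw [List.append_nil] at h1
  obtain ⟨v, hv⟩ := sim h (Nat.le_succ _) (mach p) (fun l => Sum.inl (some l)) (Sum.inl none)
    (fun l => rfl) [] [] v2
  refine h1.trans (h2.trans (hv.trans (Rch.one ?_)))
  simp [TM2.step, mach, TM2.stepAux]

theorem stk_in (n : ℕ) (x : List A2) (k : KK (n + 1)) :
    (@dite (List (GG (n + 1) k)) (k = Sum.inl false) (instDecidableEqSum k (Sum.inl false))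
      (fun h => by rw [h]; exact x) fun _ => []) =
      toStk (n + 1) x [] (ini []) k := by
  rcases k with (_ | _) | k
  · rfl
  · rfl
  · simp [toStk, ini]

theorem stk_out (n : ℕ) (x : List Bool) (k : KK (n + 1)) :
    (@dite (List (GG (n + 1) k)) (k = Sum.inr 0) (instDecidableEqSum k (Sum.inr 0))
      (fun h => by rw [h]; exact x) fun _ => []) =
      toStk (n + 1) [] [] (ini x) k := by
  rcases k with (_ | _) | k
  · rfl
  · rfl
  · by_cases hk : k = (0 : Fin (n + 1))
    · subst hk
      simp [toStk, ini]
    · have : k.val ≠ 0 := fun h => hk (Fin.ext h)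
      rw [dif_neg (by simpa using hk)]
      simp [toStk, ini, this]

/-- A program that computes `f` with polynomial cost yields a polynomial-time machine. -/
theorem tm2_front {α β : Type} (ea : α → List A2) (eb : β → List Bool) (f : α → β) (p : Prog)
    (t : Polynomial ℕ)
    (h : ∀ a, ∃ n ≤ t.eval (ea a).length, Ex p (ini (enc (ea a))) (ini (eb (f a))) n) :
    Nonempty (TM2ComputableInPolyTime ea eb f) := by
  choose n hn hr using h
  refine ⟨{ tm := machine p, inputAlphabet := Equiv.refl _, outputAlphabet := Equiv.refl _,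
            time := 2 * Polynomial.X + t + 3, outputsFun := ?_ }⟩
  intro a
  refine { steps := ((ea a).length + 1) + (((ea a).length + 1) + (n a + 1)),
           evals_in_steps := ?_, steps_le_m := ?_ }
  · have h3 := machine_outputs (hr a)
    have h1 : initList (machine p)
        (List.map (Equiv.refl ((machine p).Γ (machine p).k₀)).invFun (ea a)) =
        ⟨some (Sum.inr false), (none, none), toStk (bnd p + 1) (ea a) [] (ini [])⟩ := by
      have : List.map (Equiv.refl ((machine p).Γ (machine p).k₀)).invFun (ea a) = ea a :=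
        List.map_id _
      rw [this]
      unfold initList
      congr 1
      funext k
      exact stk_in (bnd p) (ea a) k
    have h2 : haltList (machine p)
        (List.map (Equiv.refl ((machine p).Γ (machine p).k₁)).invFun (eb (f a))) =
        ⟨none, (none, none), toStk (bnd p + 1) [] [] (ini (eb (f a)))⟩ := by
      have : List.map (Equiv.refl ((machine p).Γ (machine p).k₁)).invFun (eb (f a)) = eb (f a) :=
        List.map_id _
      rw [this]
      unfold haltList
      congr 1
      funext k
      exact stk_out (bnd p) (eb (f a)) k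
    refine (congrArg (fun z => (flip bind (machine p).step)^[_] (some z)) h1).trans ?_
    refine Eq.trans ?_ (congrArg some h2.symm)
    exact h3
  · simp only [Polynomial.eval_add, Polynomial.eval_mul, Polynomial.eval_X, Polynomial.eval_ofNat]
    have := hn a
    omega

end Pool.Agent.H39.Front
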