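import Mathlib
import Pool.Agent.H39.NP.Front
import Pool.Agent.H72.NP.Defs

set_option autoImplicit false

/-!
# Membership in NP from a polynomial-time verifier
-/

namespace Pool.Agent.H39.Front

open Turing Pool.Agent.H80.Poly Pool.Agent.H72.NP Computability

variable {α β : Type} [BEnc α] [BEnc β]

/-- the symbols of the first kind -/
def lefts (l : List A2) : List Bool :=
  l.filterMap (fun x => match x with | Sum.inl b => some b | Sum.inr _ => none)

/-- the symbols of the second kind -/
def rights (l : List A2) : List Bool :=
  l.filterMap (fun x => match x with | Sum.inl _ => none | Sum.inr b => some b)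

theorem lefts_pairEnc (a : α) (w : List Bool) :
    lefts (pairEnc (BEnc.enc (α := α)) (a, w)) = enc a := by
  unfold lefts pairEnc
  rw [List.filterMap_append, List.filterMap_map, List.filterMap_map]
  have h1 : (fun x : Bool => (match (Sum.inl x : A2) with
    | Sum.inl b => some b | Sum.inr _ => none)) = some := by funext x; rfl
  have h2 : (fun x : Bool => (match (Sum.inr x : A2) with
    | Sum.inl b => some b | Sum.inr _ => none)) = fun _ => none := by funext x; rfl
  show List.filterMap (fun x : Bool => (match (Sum.inl x : A2) with
    | Sum.inl b => some b | Sum.inr _ => none)) (enc a) ++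
    List.filterMap (fun x : Bool => (match (Sum.inr x : A2) with
    | Sum.inl b => some b | Sum.inr _ => none)) w = enc a
  rw [h1, h2]
  simp

theorem rights_pairEnc (a : α) (w : List Bool) :
    rights (pairEnc (BEnc.enc (α := α)) (a, w)) = w := by
  unfold rights pairEnc
  rw [List.filterMap_append, List.filterMap_map, List.filterMap_map]
  have h1 : (fun x : Bool => (match (Sum.inl x : A2) with
    | Sum.inl _ => none | Sum.inr b => some b)) = fun _ => none := by funext x; rfl
  have h2 : (fun x : Bool => (match (Sum.inr x : A2) with
    | Sum.inl _ => none | Sum.inr b => some b)) = some := by funext x; rfl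
  show List.filterMap (fun x : Bool => (match (Sum.inl x : A2) with
    | Sum.inl _ => none | Sum.inr b => some b)) (enc a) ++
    List.filterMap (fun x : Bool => (match (Sum.inr x : A2) with
    | Sum.inl _ => none | Sum.inr b => some b)) w = w
  rw [h1, h2]
  simp

theorem polyTime_lefts : PolyTime lefts := by
  have hz : PolyTime (fun z : List A2 × A2 => z) := PolyTime.id
  have h1 : PolyTime (fun z : List A2 × A2 => (match z.2 with
      | Sum.inl b => some b | Sum.inr _ => none : Option Bool)) :=
    (PolyTime.ofFinite (fun x : A2 => (match x with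
      | Sum.inl b => some b | Sum.inr _ => none : Option Bool))).comp hz.snd
  exact PolyTime.filterMap (l := fun l : List A2 => l)
    (g := fun z : List A2 × A2 => (match z.2 with
      | Sum.inl b => some b | Sum.inr _ => none : Option Bool)) PolyTime.id h1

theorem polyTime_rights : PolyTime rights := by
  have hz : PolyTime (fun z : List A2 × A2 => z) := PolyTime.id
  have h1 : PolyTime (fun z : List A2 × A2 => (match z.2 with
      | Sum.inl _ => none | Sum.inr b => some b : Option Bool)) :=
    (PolyTime.ofFinite (fun x : A2 => (match x with
      | Sum.inl _ => none | Sum.inr b => some b : Option Bool))).comp hz.snd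
  exact PolyTime.filterMap (l := fun l : List A2 => l)
    (g := fun z : List A2 × A2 => (match z.2 with
      | Sum.inl _ => none | Sum.inr b => some b : Option Bool)) PolyTime.id h1

/-- inputs together with a witness, encoded as in the definition of NP -/
structure Inp (α : Type) [BEnc α] where
  /-- the instance -/
  fst : α
  /-- the witness -/
  snd : List Bool

theorem pairEnc_inj {x y : α × List Bool}
    (h : pairEnc (BEnc.enc (α := α)) x = pairEnc (BEnc.enc (α := α)) y) : x = y := by
  obtain ⟨a, w⟩ := x
  obtain ⟨a', w'⟩ := y
  have h1 := congrArg lefts h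
  have h2 := congrArg rights h
  rw [lefts_pairEnc, lefts_pairEnc] at h1
  rw [rights_pairEnc, rights_pairEnc] at h2
  rw [BEnc.enc_inj h1, h2]

instance : BEnc (Inp α) :=
  ⟨fun x => enc (pairEnc (BEnc.enc (α := α)) (x.fst, x.snd)), fun x y h => by
    have h1 := pairEnc_inj (BEnc.enc_inj h)
    obtain ⟨a, w⟩ := x
    obtain ⟨a', w'⟩ := y
    simp only [Prod.mk.injEq] at h1
    obtain ⟨rfl, rfl⟩ := h1
    rfl⟩

theorem enc_inp (x : Inp α) : enc x = enc (pairEnc (BEnc.enc (α := α)) (x.fst, x.snd)) := rfl

theorem size_symbols (l : List A2) : size l = 5 * l.length := by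
  induction l with
  | nil => simp [size]
  | cons a l ih =>
    rw [size_cons, ih, List.length_cons]
    have : size a = 2 := by rcases a with a | a <;> simp [size]
    omega

theorem polyTime_inp : PolyTime (fun x : Inp α => (x.fst, x.snd)) := by
  have h0 : PolyTime (fun x : Inp α => pairEnc (BEnc.enc (α := α)) (x.fst, x.snd)) :=
    PolyTime.of_enc_eq (fun _ => rfl)
  have h1 : PolyTime (fun x : Inp α =>
      (listToStr (lefts (pairEnc (BEnc.enc (α := α)) (x.fst, x.snd))),
        rights (pairEnc (BEnc.enc (α := α)) (x.fst, x.snd)))) :=
    (PolyTime.listToStr'.comp (polyTime_lefts.comp h0)).pair (polyTime_rights.comp h0)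
  refine h1.transfer (fun x => ?_)
  rw [lefts_pairEnc, rights_pairEnc]
  rfl

/-- A polynomial-time function of pairs (library encoding) is computed in polynomial time by
Mathlib's machines with the encoding `pairEnc` of pairs (instance, witness). -/
theorem polyTimeFun_pairEnc {f : α × List Bool → β} (hf : PolyTime f) :
    PolyTimeFun (pairEnc (BEnc.enc (α := α))) (BEnc.enc (α := β)) f := by
  have h := (PolyTime.comp (g := f) (f := fun x : Inp α => (x.fst, x.snd)) hf polyTime_inp)
  obtain ⟨p, t, hp⟩ := h.poly
  refine tm2_front _ _ f p (t.comp (5 * Polynomial.X)) (fun a => ?_)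
  obtain ⟨n, hn, hx⟩ := hp ⟨a.1, a.2⟩
  refine ⟨n, ?_, hx⟩
  rw [Polynomial.eval_comp]
  simp only [Polynomial.eval_mul, Polynomial.eval_X, Polynomial.eval_ofNat]
  refine hn.trans (le_of_eq ?_)
  congr 1
  exact size_symbols _

/-- **Membership in NP.** A decision problem on instances of a type with helper80's encoding is in
NP if it has witnesses `w` of polynomially bounded length that are checked by a polynomial-time
function `R`. -/
theorem inNP_of_polyTime {P : α → Prop} (R : α × List Bool → Bool) (hR : PolyTime R)
    (p : Polynomial ℕ)
    (h : ∀ a, P a ↔ ∃ w : List Bool, w.length ≤ p.eval (enc a).length ∧ R (a, w) = true) :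
    InNP (BEnc.enc (α := α)) P :=
  ⟨R, p, polyTimeFun_pairEnc hR, h⟩

/-- The same with a Boolean-valued polynomial-time test on pairs (instance, certificate) where the
certificates are of any encoded type `β`, provided there is a polynomial-time decoder `dec` from bit
strings that is onto the certificates needed. -/
theorem inNP_of_polyTime_dec {P : α → Prop} (dec : List Bool → β) (hdec : PolyTime dec)
    (R : α × β → Bool) (hR : PolyTime R) (p : Polynomial ℕ)
    (h1 : ∀ a, P a → ∃ w : List Bool, w.length ≤ p.eval (enc a).length ∧ R (a, dec w) = true)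
    (h2 : ∀ a b, R (a, b) = true → P a) :
    InNP (BEnc.enc (α := α)) P := by
  have hz : PolyTime (fun z : α × List Bool => z) := PolyTime.id
  refine inNP_of_polyTime (fun z => R (z.1, dec z.2)) (hR.comp (hz.fst.pair (hdec.comp hz.snd))) p
    (fun a => ⟨h1 a, ?_⟩)
  rintro ⟨w, _, hw⟩
  exact h2 a _ hw

end Pool.Agent.H39.Front
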